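import Mathlib

/-!
# Several classes of 3-elements in a coset

Job GA-TWO of helper62.
-/

set_option autoImplicit false

namespace Pool.Agent.Y109.GA

/-- the decomposition into a 3-element and a 3-regular element -/
lemma parts {G : Type} [Group G] [Finite G] (g : G) : ∃ x s : G, g = x * s ∧ Commute x s ∧
    (∃ k, orderOf x = 3 ^ k) ∧ ¬ 3 ∣ orderOf s := by
  obtain ⟨k, m, hm, hkm⟩ := Nat.exists_eq_pow_mul_and_not_dvd (orderOf_pos g).ne' 3 (by norm_num)
  have hco : Nat.Coprime (3 ^ k) m :=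
    Nat.Coprime.pow_left _ ((Nat.Prime.coprime_iff_not_dvd Nat.prime_three).2 hm)
  have hb := Nat.gcd_eq_gcd_ab (3 ^ k) m
  rw [hco.gcd_eq_one] at hb
  set a := Nat.gcdA (3 ^ k) m
  set b := Nat.gcdB (3 ^ k) m
  have hg : g ^ ((3 ^ k * m : ℕ) : ℤ) = 1 := by
    rw [← hkm, zpow_natCast, pow_orderOf_eq_one]
  refine ⟨g ^ ((m : ℤ) * b), g ^ (((3 ^ k : ℕ) : ℤ) * a), ?_, ?_, ?_, ?_⟩
  · rw [← zpow_add, add_comm, ← hb]
    simp
  · exact (Commute.refl g).zpow_zpow _ _
  · have h1 : orderOf (g ^ ((m : ℤ) * b)) ∣ 3 ^ k := by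
      apply orderOf_dvd_of_pow_eq_one
      rw [← zpow_natCast, ← zpow_mul, show (m : ℤ) * b * ((3 ^ k : ℕ) : ℤ) =
        ((3 ^ k * m : ℕ) : ℤ) * b by push_cast; ring, zpow_mul, hg, one_zpow]
    obtain ⟨j, -, hj⟩ := (Nat.dvd_prime_pow Nat.prime_three).1 h1
    exact ⟨j, hj⟩
  · have h1 : orderOf (g ^ (((3 ^ k : ℕ) : ℤ) * a)) ∣ m := by
      apply orderOf_dvd_of_pow_eq_one
      rw [← zpow_natCast, ← zpow_mul, show ((3 ^ k : ℕ) : ℤ) * a * (m : ℤ) =
        ((3 ^ k * m : ℕ) : ℤ) * a by push_cast; ring, zpow_mul, hg, one_zpow]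
    exact fun h => hm (h.trans h1)

/-- the order of the group from the class and the centraliser -/
lemma class_card {G : Type} [Group G] [Finite G] (x : G) :
    Nat.card {z : G // IsConj x z} * Nat.card (Subgroup.centralizer ({x} : Set G)) =
      Nat.card G := by
  classical
  have e : G ≃ {z : G // IsConj x z} × (Subgroup.centralizer ({x} : Set G)) := by
    have hc : ∀ z : {z : G // IsConj x z}, ∃ c : G, c * x * c⁻¹ = z.1 := fun z =>
      isConj_iff.1 z.2
    choose c hc using hc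
    refine
      { toFun := fun g => (⟨g * x * g⁻¹, isConj_iff.2 ⟨g, rfl⟩⟩,
          ⟨(c ⟨g * x * g⁻¹, isConj_iff.2 ⟨g, rfl⟩⟩)⁻¹ * g, ?_⟩)
        invFun := fun p => c p.1 * p.2.1
        left_inv := fun g => ?_
        right_inv := fun p => ?_ }
    · rw [Subgroup.mem_centralizer_singleton_iff]
      have h1 := hc ⟨g * x * g⁻¹, isConj_iff.2 ⟨g, rfl⟩⟩
      simp only at h1
      generalize c ⟨g * x * g⁻¹, isConj_iff.2 ⟨g, rfl⟩⟩ = d at h1
      have h2 : x = d⁻¹ * (g * x * g⁻¹) * d := by rw [← h1]; group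
      have h3 : d⁻¹ * g * x = d⁻¹ * (g * x * g⁻¹) * d * (d⁻¹ * g) := by group
      rw [h3, ← h2]
    · simp
    · rcases p with ⟨z, s⟩
      have hs : s.1 * x = x * s.1 := Subgroup.mem_centralizer_singleton_iff.1 s.2
      have h1 : c z * s.1 * x * (c z * s.1)⁻¹ = z.1 := by
        rw [mul_assoc (c z) s.1 x, hs, ← hc z]
        group
      have h2 : (⟨c z * s.1 * x * (c z * s.1)⁻¹, isConj_iff.2 ⟨c z * s.1, rfl⟩⟩ :
          {z : G // IsConj x z}) = z := Subtype.ext h1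
      apply Prod.ext
      · exact h2
      · apply Subtype.ext
        show (c ⟨c z * s.1 * x * (c z * s.1)⁻¹, isConj_iff.2 ⟨c z * s.1, rfl⟩⟩)⁻¹ *
          (c z * s.1) = s.1
        rw [h2]
        group
  rw [Nat.card_congr e, Nat.card_prod]

/-- 3-regular elements are in `N` -/
lemma reg_mem {G : Type} [Group G] [Finite G] (N : Subgroup G) (y : G) (hN : N.Normal)
    (htop : N ⊔ Subgroup.zpowers y = ⊤) (hy : ∃ k, orderOf y = 3 ^ k) {s : G}
    (hs : ¬ 3 ∣ orderOf s) : s ∈ N := by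
  obtain ⟨k, hk⟩ := hy
  have h1 : s ∈ N ⊔ Subgroup.zpowers y := by rw [htop]; trivial
  rw [Subgroup.mem_sup_of_normal_left] at h1
  obtain ⟨n, hn, z, hz, rfl⟩ := h1
  obtain ⟨i, rfl⟩ := Subgroup.mem_zpowers_iff.1 hz
  rw [← QuotientGroup.eq_one_iff]
  have h2 : ((n * y ^ i : G) : G ⧸ N) = ((y ^ i : G) : G ⧸ N) := by
    rw [QuotientGroup.mk_mul, (QuotientGroup.eq_one_iff n).2 hn, one_mul]
  have h3 : orderOf ((n * y ^ i : G) : G ⧸ N) ∣ 3 ^ k := by
    apply orderOf_dvd_of_pow_eq_one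
    rw [h2, ← QuotientGroup.mk_pow, ← zpow_natCast, ← zpow_mul, mul_comm, zpow_mul, zpow_natCast,
      ← hk, pow_orderOf_eq_one, one_zpow, QuotientGroup.mk_one]
  have h4 : orderOf ((n * y ^ i : G) : G ⧸ N) ∣ orderOf (n * y ^ i) :=
    orderOf_map_dvd (QuotientGroup.mk' N) _
  have hco : Nat.Coprime (3 ^ k) (orderOf (n * y ^ i)) :=
    Nat.Coprime.pow_left _ ((Nat.Prime.coprime_iff_not_dvd Nat.prime_three).2 hs)
  rw [← orderOf_eq_one_iff]
  exact Nat.eq_one_of_dvd_coprimes hco h3 h4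

theorem two (G : Type) [Group G] [Finite G] (N : Subgroup G) (y : G) (hN : N.Normal)
    (htop : N ⊔ Subgroup.zpowers y = ⊤) (hy : ∃ k, orderOf y = 3 ^ k)
    (h : ∀ x : G, (∃ k, orderOf x = 3 ^ k) → y⁻¹ * x ∈ N →
      ∃ K : Subgroup G, (∀ s, s ∈ K ↔ Commute x s ∧ ¬ 3 ∣ orderOf s) ∧
        Nat.card (Subgroup.centralizer ({x} : Set G)) = 3 * N.index * Nat.card K) :
    ∃ x : G, (∃ k, orderOf x = 3 ^ k) ∧ y⁻¹ * x ∈ N ∧ ¬ IsConj y x := by
  classical
  by_contra hcon
  push Not at hcon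
  have _ := Fintype.ofFinite G
  let T : Type := {x : G // (∃ k, orderOf x = 3 ^ k) ∧ y⁻¹ * x ∈ N}
  have hK : ∀ x : T, ∃ K : Subgroup G, (∀ s, s ∈ K ↔ Commute x.1 s ∧ ¬ 3 ∣ orderOf s) ∧
      Nat.card (Subgroup.centralizer ({x.1} : Set G)) = 3 * N.index * Nat.card K :=
    fun x => h x.1 x.2.1 x.2.2
  choose K hK1 hK2 using hK
  -- the covering of the coset
  have hcov : ∀ n : N, ∃ p : (Σ x : T, K x), p.1.1 * p.2.1 = y * n.1 := by
    intro n
    obtain ⟨x, s, hg, hc, hx, hs⟩ := parts (y * n.1)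
    have hsN := reg_mem N y hN htop hy hs
    have hxN : y⁻¹ * x ∈ N := by
      have h1 : x = y * n.1 * s⁻¹ := by rw [hg]; group
      have h2 : y⁻¹ * x = n.1 * s⁻¹ := by rw [h1]; group
      rw [h2]
      exact N.mul_mem n.2 (N.inv_mem hsN)
    exact ⟨⟨⟨x, hx, hxN⟩, ⟨s, (hK1 ⟨x, hx, hxN⟩ s).2 ⟨hc, hs⟩⟩⟩, hg.symm⟩
  choose p hp using hcov
  have hinj : Function.Injective p := by
    intro n n' hnn
    have h1 := hp n
    rw [hnn, hp n'] at h1
    exact Subtype.ext (mul_left_cancel h1).symm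
  have hle : Nat.card N ≤ ∑ x : T, Nat.card (K x) := by
    rw [← Nat.card_sigma]
    exact Nat.card_le_card_of_injective p hinj
  have hcc : ∀ x : T, 3 * N.index * Nat.card (K x) =
      Nat.card (Subgroup.centralizer ({y} : Set G)) := by
    intro x
    rw [← hK2]
    have h1 := hcon x.1 x.2.1 x.2.2
    have h2 := class_card x.1
    have h3 := class_card y
    have h4 : Nat.card {z : G // IsConj x.1 z} = Nat.card {z : G // IsConj y z} :=
      Nat.card_congr (Equiv.subtypeEquivRight fun z => ⟨fun h => h1.trans h,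
        fun h => h1.symm.trans h⟩)
    rw [h4, ← h3] at h2
    refine Nat.eq_of_mul_eq_mul_left ?_ h2
    have : Nonempty {z : G // IsConj y z} := ⟨⟨y, IsConj.refl y⟩⟩
    exact Nat.card_pos
  have hT : Fintype.card T ≤ Nat.card {z : G // IsConj y z} := by
    rw [← Nat.card_eq_fintype_card]
    exact Nat.card_le_card_of_injective
      (fun x : T => (⟨x.1, hcon x.1 x.2.1 x.2.2⟩ : {z : G // IsConj y z}))
      fun x x' hxx => Subtype.ext (congrArg (fun z : {z : G // IsConj y z} => z.1) hxx)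
  have h5 : 3 * N.index * Nat.card N ≤ Nat.card G := by
    calc 3 * N.index * Nat.card N ≤ 3 * N.index * ∑ x : T, Nat.card (K x) :=
          Nat.mul_le_mul_left _ hle
      _ = ∑ x : T, 3 * N.index * Nat.card (K x) := Finset.mul_sum _ _ _
      _ = ∑ _x : T, Nat.card (Subgroup.centralizer ({y} : Set G)) :=
          Finset.sum_congr rfl fun x _ => hcc x
      _ = Fintype.card T * Nat.card (Subgroup.centralizer ({y} : Set G)) := by
          rw [Finset.sum_const, Finset.card_univ, smul_eq_mul]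
      _ ≤ Nat.card {z : G // IsConj y z} * Nat.card (Subgroup.centralizer ({y} : Set G)) :=
          Nat.mul_le_mul_right _ hT
      _ = Nat.card G := class_card y
  have h6 := N.index_mul_card
  have h7 : 0 < N.index * Nat.card N := by
    rw [h6]
    exact Nat.card_pos
  rw [← h6, mul_assoc] at h5
  omega

end Pool.Agent.Y109.GA
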