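import Pool.Agent.Y62.GA.Stm
import Pool.Agent.Y109.GA.Two

/-!
# Several classes of 3-elements in a coset

Job GA-TWO of helper62.
-/

set_option autoImplicit false

namespace Pool.Agent.Y109.GA

theorem S_TWO : Pool.Agent.Y62.GA.S_TWO := by
  intro G _ _ N y hN htop hy h
  exact two G N y hN htop hy h

end Pool.Agent.Y109.GA
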